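import Pool.Agent.Y258.SX.XStmts
import Pool.Agent.Y290.SD.C9
import Pool.Agent.Y833.SD.C12c

set_option autoImplicit false
set_option linter.unusedSectionVars false

/-!
# Jobs X10, X13 and X14: density of the allowed sets, distant levels, second moment
-/

namespace Pool.Agent.Y710.SX

open Finset Pool.Agent.H470D4 Pool.Agent.Y258 Pool.Agent.Y290.SD
open Pool.Agent.H935R2.PS (La uu nn dl mx Suit)
open Pool.Agent.Y833.SD (N1 N1_eq N1_le Wz rat rat_ne rat_none OO_eq)

section gen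
variable {q M B n : ℕ} [Fact q.Prime]

lemma BdL_smul {ι : Type} [Fintype ι] {D K0 : ℕ} {h : ι → ZMod q} {s : ZMod q} (hs : s ≠ 0)
    (hb : BdL D K0 h) : BdL D K0 (fun a => s * h a) := by
  obtain ⟨c, hc, h1⟩ := hb
  refine ⟨c * s⁻¹, mul_ne_zero hc (inv_ne_zero hs), ?_⟩
  have e : (fun a => c * s⁻¹ * (s * h a)) = fun a => c * h a := by
    funext a
    field_simp
  rw [e]
  exact h1

lemma XW_smul {ι : Type} [Fintype ι] {D K0 : ℕ} {h : ι → ZMod q} {s : ZMod q} (hs : s ≠ 0) :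
    XW D K0 (fun a => s * h a) = XW D K0 h := by
  classical
  unfold XW
  refine Finset.sum_bij (fun c _ => c * s) ?_ ?_ ?_ ?_
  · intro c hc
    rw [mem_filter] at hc ⊢
    exact ⟨mem_univ _, mul_ne_zero hc.2 hs⟩
  · intro c _ c' _ h1
    exact mul_right_cancel₀ hs h1
  · intro c hc
    rw [mem_filter] at hc
    refine ⟨c * s⁻¹, ?_, ?_⟩
    · rw [mem_filter]
      exact ⟨mem_univ _, mul_ne_zero hc.2 (inv_ne_zero hs)⟩
    · rw [mul_assoc, inv_mul_cancel₀ hs, mul_one]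
  · intro c _
    have e : (fun a => c * (s * h a)) = fun a => c * s * h a := by
      funext a
      ring
    rw [e]

lemma BX_smul {ι : Type} [Fintype ι] {lam : ℝ} {D K0 : ℕ} {h : ι → ZMod q} {s : ZMod q}
    (hs : s ≠ 0) (hb : BX lam D K0 h) : BX lam D K0 (fun a => s * h a) := by
  rcases hb with h1 | h1
  · exact Or.inl (BdL_smul hs h1)
  · right
    rw [XW_smul hs]
    exact h1

lemma XW_nonneg {ι : Type} [Fintype ι] (D K0 : ℕ) (h : ι → ZMod q) : 0 ≤ XW D K0 h := by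
  unfold XW
  exact sum_nonneg fun c _ => by positivity

/-- a failure of `Gx`, normalised -/
lemma not_Gx {c : Flg q M B n} {K0 : ℕ} {ω : Pth q B} {l : Fin (n+2) → ℕ} {r : ℕ}
    (h : ¬ Gx c K0 ω l r) : ∃ H : Option (Fin (n+2)) → ZMod q, H none = 1 ∧ Rel c ω l r H ∧
      BX (2 ^ (n + 6)) (dm M B l r) K0 H := by
  unfold Gx at h
  push Not at h
  obtain ⟨H, h1, h2, h3⟩ := h
  refine ⟨fun o => (H none)⁻¹ * H o, inv_mul_cancel₀ h1, Rel_smul h2 _, ?_⟩
  exact BX_smul (inv_ne_zero h1) h3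

lemma IL_dm1 {K7 r β : ℕ} {l : Fin (n+2) → ℕ} (hl : l ∈ IL M B n K7 r β) :
    1 ≤ dm M B l r := by
  rw [mem_IL] at hl
  unfold dm
  omega

open Classical in
/-- the number of forbidden normalised relations times the probability of one relation -/
lemma card_forb {C : ℕ} {D K0 : ℕ}
    (hX : (((univ : Finset (Option (Fin (n + 2)) → ZMod q)).filter (fun H => H none = 1 ∧
      BX (2 ^ (n + 6)) D K0 H)).card : ℝ) ≤ C * (La q : ℝ) ^ (n + 2) * 2 ^ (D * La q) / 2 ^ K0) :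
    (((univ : Finset (Option (Fin (n + 2)) → ZMod q)).filter (fun H => H none = 1 ∧
      BX (2 ^ (n + 6)) D K0 H)).card : ℝ) * ((q:ℝ) ^ B / (q:ℝ) ^ D) ≤
      (q:ℝ) ^ B * (C * (La q : ℝ) ^ (n + 2) / 2 ^ K0) := by
  have hqD : (0:ℝ) < (q:ℝ) ^ D := pow_pos qpos _
  have hqB : (0:ℝ) < (q:ℝ) ^ B := pow_pos qpos _
  have e4 := two_pow_La (q := q) D
  calc _ ≤ (C * (La q : ℝ) ^ (n + 2) * 2 ^ (D * La q) / 2 ^ K0) * ((q:ℝ) ^ B / (q:ℝ) ^ D) :=
        mul_le_mul_of_nonneg_right hX (by positivity)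
    _ ≤ (C * (La q : ℝ) ^ (n + 2) * (q:ℝ) ^ D / 2 ^ K0) * ((q:ℝ) ^ B / (q:ℝ) ^ D) := by
        gcongr
    _ = (q:ℝ) ^ B * (C * (La q : ℝ) ^ (n + 2) / 2 ^ K0) := by
        field_simp

end gen

/-- **X10** -/
theorem x10 (h6 : St_X6) : St_X10 := by
  classical
  intro n
  obtain ⟨C, hC⟩ := h6 n
  refine ⟨2 * (n + 2) * C + C, ?_⟩
  intro q _ hS hCq M B c hc hM K0 K7 hK hK0 hK0' hbig j ω
  have hX := hC q hS (by omega)
  have hcardB : Fintype.card (Blk q B) = q ^ B := by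
    rw [Fintype.card_fun, ZMod.card, Fintype.card_fin]
  by_cases hE : Exc c ω (j / M)
  swap
  · have h1 : AlX c K0 K7 j ω = univ := by
      unfold AlX
      rw [filter_true_of_mem]
      intro z _ h
      exact absurd h hE
    rw [h1, card_univ, hcardB]
    omega
  set r := j / M with hr
  have hk : j % M < M := Nat.mod_lt _ hM
  set b : Fin M := ⟨M - 1 - j % M, by omega⟩ with hb
  have hbv : (b : ℕ) = M - 1 - j % M := rfl
  have hj : j = r * M + (M - 1 - (b:ℕ)) := by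
    have h1 : M * (j / M) + j % M = j := Nat.div_add_mod j M
    rw [hbv, hr, mul_comm (j / M) M]
    omega
  -- the complement
  set S := (univ : Finset (Blk q B)).filter (fun z => z ∉ AlX c K0 K7 j ω) with hSd
  have hadd : (AlX c K0 K7 j ω).card + S.card = q ^ B := by
    rw [← hcardB, ← card_univ, ← card_filter_add_card_filter_not (s := univ)
      (fun z => z ∈ AlX c K0 K7 j ω)]
    congr 2
    ext z
    simp
  suffices h : 2 * S.card ≤ q ^ B by omega
  have hsub : S ⊆ (IL M B n K7 r b).biUnion (fun l =>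
      ((univ : Finset (Option (Fin (n+2)) → ZMod q)).filter (fun H => H none = 1 ∧
        BX (2 ^ (n + 6)) (dm M B l r) K0 H)).biUnion (fun H =>
        (univ : Finset (Blk q B)).filter (fun z =>
        Rel c (Function.update ω (r * M + (M - 1 - b)) z) l r H))) := by
    intro z hz
    rw [hSd, mem_filter] at hz
    have h2 := hz.2
    unfold AlX at h2
    rw [mem_filter] at h2
    push Not at h2
    obtain ⟨_, l, hl, hG⟩ := h2 (mem_univ z)
    rw [← hr, ← hbv] at hl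
    obtain ⟨H, hH0, hH1, hH2⟩ := not_Gx hG
    rw [mem_biUnion]
    refine ⟨l, hl, ?_⟩
    rw [mem_biUnion]
    refine ⟨H, mem_filter.2 ⟨mem_univ _, hH0, hH2⟩, mem_filter.2 ⟨mem_univ _, ?_⟩⟩
    rw [← hj]
    exact hH1
  have hreal : (S.card : ℝ) ≤ ∑ l ∈ IL M B n K7 r b, (q:ℝ) ^ B * (C * (La q : ℝ) ^ (n+2) / 2 ^ K0) := by
    calc (S.card : ℝ) ≤ ((∑ l ∈ IL M B n K7 r b, ∑ H ∈
          ((univ : Finset (Option (Fin (n+2)) → ZMod q)).filter (fun H => H none = 1 ∧
          BX (2 ^ (n + 6)) (dm M B l r) K0 H)), ((univ : Finset (Blk q B)).filter (fun z =>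
          Rel c (Function.update ω (r * M + (M - 1 - b)) z) l r H)).card : ℕ) : ℝ) := by
          refine Nat.cast_le.2 ?_
          refine (card_le_card hsub).trans (card_biUnion_le.trans ?_)
          exact sum_le_sum fun l _ => card_biUnion_le
      _ = ∑ l ∈ IL M B n K7 r b, ∑ H ∈
          ((univ : Finset (Option (Fin (n+2)) → ZMod q)).filter (fun H => H none = 1 ∧
          BX (2 ^ (n + 6)) (dm M B l r) K0 H)), (((univ : Finset (Blk q B)).filter (fun z =>
          Rel c (Function.update ω (r * M + (M - 1 - b)) z) l r H)).card : ℝ) := by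
          push_cast; rfl
      _ ≤ ∑ l ∈ IL M B n K7 r b, (q:ℝ) ^ B * (C * (La q : ℝ) ^ (n+2) / 2 ^ K0) := by
          refine sum_le_sum fun l hl => ?_
          have e1 : ∀ H ∈ ((univ : Finset (Option (Fin (n+2)) → ZMod q)).filter (fun H =>
              H none = 1 ∧ BX (2 ^ (n + 6)) (dm M B l r) K0 H)),
              (((univ : Finset (Blk q B)).filter (fun z =>
              Rel c (Function.update ω (r * M + (M - 1 - b)) z) l r H)).card : ℝ) =
              (q:ℝ) ^ B / (q:ℝ) ^ dm M B l r := by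
            intro H hH
            rw [mem_filter] at hH
            rw [card_eq_sum_ii]
            exact sum_ii_Rel hc hE hK hl H (by rw [hH.2.1]; exact one_ne_zero)
          rw [sum_congr rfl e1, sum_const, nsmul_eq_mul]
          exact card_forb (hX (dm M B l r) K0 (IL_dm1 hl) (IL_dm hl) hK0 hK0')
  rw [sum_const, nsmul_eq_mul] at hreal
  have hIL : (((IL M B n K7 r b).card : ℕ) : ℝ) ≤ (n + 2) * (B * ((M * B + 1 : ℕ):ℝ) ^ n) := by
    have h1 := card_IL (M := M) (B := B) (n := n) K7 r b hK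
    have h2 : (n + 2) * (B * (M * B) ^ n) ≤ (n + 2) * (B * (M * B + 1) ^ n) := by gcongr; omega
    exact_mod_cast h1.trans h2
  have hbig' : 2 * (n + 2) * C * (B * (M * B + 1) ^ n * La q ^ (n + 2)) ≤ 2 ^ K0 := by
    refine le_trans ?_ hbig
    exact Nat.mul_le_mul_right _ (by omega)
  have hbigR : (2 * (n + 2) * C : ℝ) * (B * ((M * B + 1 : ℕ):ℝ) ^ n * (La q:ℝ) ^ (n + 2)) ≤
      2 ^ K0 := by exact_mod_cast hbig'
  have h2K : (0:ℝ) < 2 ^ K0 := by positivity
  have hfin : (2 * S.card : ℝ) ≤ (q:ℝ) ^ B := by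
    calc (2 * S.card : ℝ) ≤ 2 * (((n + 2) * (B * ((M * B + 1 : ℕ):ℝ) ^ n)) *
          ((q:ℝ) ^ B * (C * (La q : ℝ) ^ (n+2) / 2 ^ K0))) := by
          refine mul_le_mul_of_nonneg_left (hreal.trans ?_) (by norm_num)
          gcongr
      _ = (q:ℝ) ^ B * (((2 * (n + 2) * C : ℝ) *
          (B * ((M * B + 1 : ℕ):ℝ) ^ n * (La q:ℝ) ^ (n + 2))) / 2 ^ K0) := by ring
      _ ≤ (q:ℝ) ^ B * 1 := by
          refine mul_le_mul_of_nonneg_left ?_ (by positivity)
          rw [div_le_one h2K]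
          exact hbigR
      _ = (q:ℝ) ^ B := mul_one _
  exact_mod_cast hfin

/-- **X13** -/
theorem x13 (hA : St_A6a) (h6 : St_X6) : St_X13 := by
  classical
  intro n
  obtain ⟨C1, hC1, hA'⟩ := hA (n + 3)
  obtain ⟨C2, hC2⟩ := h6 n
  refine ⟨⌈C1 * C2⌉₊ + C2 + 3, ?_⟩
  intro q _ hS hCq M B c hc K0 K7 hK hK0 hK0' ω r b l l' hl hl' h0 hE hP
  have hw := hA' q (by omega) (Option (Fin (n+2))) (card_opt n)
  set D := dm M B l r with hD
  set D' := dm M B l' r with hD'
  have hu : (n + 11) * uu q ≤ K0 := by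
    have : (n + 11) * uu q ≤ (n + 12) * uu q := Nat.mul_le_mul_right _ (by omega)
    omega
  have hb := hC2 q hS (by omega) D' K0 (IL_dm1 hl') (IL_dm hl') hu hK0'
  have hqD : (0:ℝ) < (q:ℝ) ^ D := pow_pos qpos _
  have hqD' : (0:ℝ) < (q:ℝ) ^ D' := pow_pos qpos _
  set U : Blk q B → Pth q B := fun z => Function.update ω (r * M + (M - 1 - b)) z with hU
  -- the failure of `Gx`
  have hfail : ∀ z, ii (¬ Gx c K0 (U z) l' r) ≤ ∑ H' : Option (Fin (n+2)) → ZMod q,
      ii (H' none = 1 ∧ BX (2 ^ (n + 6)) D' K0 H') * ii (Rel c (U z) l' r H') := by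
    intro z
    by_cases hG : Gx c K0 (U z) l' r
    · rw [ii_false (not_not_intro hG)]
      exact sum_nonneg fun H' _ => mul_nonneg (ii_nonneg _) (ii_nonneg _)
    · rw [ii_true hG]
      obtain ⟨H', h1, h2, h3⟩ := not_Gx hG
      have h4 := single_le_sum (f := fun H' : Option (Fin (n+2)) → ZMod q =>
        ii (H' none = 1 ∧ BX (2 ^ (n + 6)) D' K0 H') * ii (Rel c (U z) l' r H'))
        (fun H' _ => mul_nonneg (ii_nonneg _) (ii_nonneg _)) (mem_univ H')
      refine le_trans ?_ h4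
      rw [ii_true ⟨h1, h3⟩, ii_true h2, one_mul]
  calc ∑ z : Blk q B, RR c (U z) l r * ii (¬ Gx c K0 (U z) l' r)
      ≤ ∑ z : Blk q B, (∑ H : Option (Fin (n+2)) → ZMod q,
          ii (H none ≠ 0 ∧ Rel c (U z) l r H) * ((q:ℝ) ^ D * wm H)) *
          ∑ H' : Option (Fin (n+2)) → ZMod q,
            ii (H' none = 1 ∧ BX (2 ^ (n + 6)) D' K0 H') * ii (Rel c (U z) l' r H') := by
        refine sum_le_sum fun z _ => ?_
        rw [← RR_eq]
        exact mul_le_mul_of_nonneg_left (hfail z) (RR_nonneg _ _ _ _)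
    _ = ∑ H : Option (Fin (n+2)) → ZMod q, ∑ H' : Option (Fin (n+2)) → ZMod q,
          ((q:ℝ) ^ D * wm H) * ii (H' none = 1 ∧ BX (2 ^ (n + 6)) D' K0 H') *
          ∑ z : Blk q B, ii (H none ≠ 0 ∧ Rel c (U z) l r H) * ii (Rel c (U z) l' r H') := by
        simp only [sum_mul_sum]
        simp only [mul_sum]
        rw [sum_comm]
        refine sum_congr rfl fun H _ => ?_
        rw [sum_comm]
        refine sum_congr rfl fun H' _ => sum_congr rfl fun z _ => ?_
        ring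
    _ ≤ ∑ H : Option (Fin (n+2)) → ZMod q, ∑ H' : Option (Fin (n+2)) → ZMod q,
          ((q:ℝ) ^ D * wm H) * ii (H' none = 1 ∧ BX (2 ^ (n + 6)) D' K0 H') *
          ((q:ℝ) ^ B / ((q:ℝ) ^ D * (q:ℝ) ^ D')) := by
        refine sum_le_sum fun H _ => sum_le_sum fun H' _ => ?_
        have hw0 := wm_nonneg H
        by_cases hH' : H' none = 1 ∧ BX (2 ^ (n + 6)) D' K0 H'
        · by_cases hH : H none ≠ 0
          · refine mul_le_mul_of_nonneg_left ?_ (mul_nonneg (by positivity) (ii_nonneg _))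
            have e : ∀ z : Blk q B, ii (H none ≠ 0 ∧ Rel c (U z) l r H) =
                ii (Rel c (U z) l r H) := fun z =>
              ii_congr ⟨fun h => h.2, fun h => ⟨hH, h⟩⟩
            simp only [e]
            exact sum_RR_pair_aux hc hl hl' hE h0 hP H H' hH (by rw [hH'.1]; exact one_ne_zero)
          · have e : ∀ z : Blk q B, ii (H none ≠ 0 ∧ Rel c (U z) l r H) = 0 := fun z =>
              ii_false fun h => hH h.1
            simp only [e, zero_mul, sum_const_zero, mul_zero]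
            exact mul_nonneg (mul_nonneg (by positivity) (ii_nonneg _)) (by positivity)
        · rw [ii_false hH']
          simp
    _ = (q:ℝ) ^ B * ((∑ H : Option (Fin (n+2)) → ZMod q, wm H) *
          ((∑ H' : Option (Fin (n+2)) → ZMod q, ii (H' none = 1 ∧ BX (2 ^ (n + 6)) D' K0 H')) /
            (q:ℝ) ^ D')) := by
        rw [sum_div, sum_mul_sum, mul_sum]
        refine sum_congr rfl fun H _ => ?_
        rw [mul_sum]
        refine sum_congr rfl fun H' _ => ?_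
        field_simp
    _ ≤ (q:ℝ) ^ B * ((C1 * (La q : ℝ) ^ (n + 3)) *
          ((C2 * (La q : ℝ) ^ (n + 2) * 2 ^ (D' * La q) / 2 ^ K0) / (q:ℝ) ^ D')) := by
        have e1 : ∑ H' : Option (Fin (n+2)) → ZMod q, ii (H' none = 1 ∧ BX (2 ^ (n + 6)) D' K0 H') ≤
            C2 * (La q : ℝ) ^ (n + 2) * 2 ^ (D' * La q) / 2 ^ K0 := by
          refine le_trans ?_ hb
          rw [card_eq_sum_ii]
        have e2 : (0:ℝ) ≤ ∑ H : Option (Fin (n+2)) → ZMod q, wm H :=
          sum_nonneg fun H _ => wm_nonneg H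
        have e3 : (0:ℝ) ≤ ∑ H' : Option (Fin (n+2)) → ZMod q,
            ii (H' none = 1 ∧ BX (2 ^ (n + 6)) D' K0 H') :=
          sum_nonneg fun H _ => ii_nonneg _
        gcongr
    _ ≤ (q:ℝ) ^ B * ((C1 * (La q : ℝ) ^ (n + 3)) *
          ((C2 * (La q : ℝ) ^ (n + 2) * (q:ℝ) ^ D' / 2 ^ K0) / (q:ℝ) ^ D')) := by
        have := two_pow_La (q := q) D'
        gcongr
    _ = (q:ℝ) ^ B * ((C1 * C2) * (La q : ℝ) ^ (2 * n + 5) / 2 ^ K0) := by
        rw [show 2 * n + 5 = (n + 3) + (n + 2) by ring, pow_add _ (n+3) (n+2)]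
        field_simp
    _ ≤ (q:ℝ) ^ B * ((⌈C1 * C2⌉₊ + C2 + 3 : ℕ) * (La q : ℝ) ^ (2 * n + 5) / 2 ^ K0) := by
        have h1 := Nat.le_ceil (C1 * C2)
        have h2 : C1 * C2 ≤ ((⌈C1 * C2⌉₊ + C2 + 3 : ℕ) : ℝ) := by
          push_cast
          have : (0:ℝ) ≤ C2 := Nat.cast_nonneg _
          linarith
        gcongr

end Pool.Agent.Y710.SX
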