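import Pool.Agent.Y710.SX.X14

set_option autoImplicit false
set_option linter.unusedSectionVars false

/-!
# Job X14: second moment
-/

namespace Pool.Agent.Y710.SX

open Finset Pool.Agent.H470D4 Pool.Agent.Y258 Pool.Agent.Y290.SD
open Pool.Agent.H935R2.PS (La uu nn dl mx Suit)
open Pool.Agent.Y833.SD (N1 N1_eq N1_le Wz rat rat_ne rat_none OO_eq)

section gen
variable {q M B n : ℕ} [Fact q.Prime]

lemma q_lt_two_pow : (q : ℝ) ≤ 2 ^ (La q + 1) := by
  have h1 : q < 2 ^ (Nat.log 2 q + 1) := Nat.lt_pow_succ_log_self (by norm_num) q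
  have h2 : q ≤ 2 ^ (La q + 1) := h1.le
  exact_mod_cast h2

lemma mx_ge (x : ZMod q) : (2:ℝ) ^ dl x ≤ mx x := by
  unfold Pool.Agent.H935R2.PS.mx Pool.Agent.H935R2.PS.dl
  by_cases h : nn x = 0
  · rw [h]
    simp
  · refine le_max_of_le_right ?_
    exact_mod_cast Nat.pow_log_le_self 2 h

lemma wm_le {ι : Type} [Fintype ι] (h : ι → ZMod q) : wm h ≤ 1 / 2 ^ sz h := by
  unfold wm sz
  rw [← prod_pow_eq_pow_sum, one_div, ← prod_inv_distrib]
  refine prod_le_prod (fun a _ => ?_) (fun a _ => ?_)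
  · have : (0:ℝ) ≤ mx (h a) := le_trans zero_le_one (le_max_left _ _)
    positivity
  · rw [one_div]
    exact inv_anti₀ (by positivity) (mx_ge _)

open Classical in
/-- the multiples of a vector -/
lemma sum_mult {D K0 : ℕ} (H : Option (Fin (n+2)) → ZMod q) :
    (q:ℝ) ^ D * ∑ s ∈ (univ : Finset (ZMod q)).filter (fun s => s ≠ 0), wm (fun o => s * H o) ≤
      2 ^ D * 2 ^ K0 * XW D K0 H := by
  unfold XW
  rw [mul_sum, mul_sum]
  refine sum_le_sum fun s _ => ?_
  have h1 := wm_le (fun o => s * H o)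
  have h2 : (q:ℝ) ^ D ≤ 2 ^ D * 2 ^ (D * La q) := by
    calc (q:ℝ) ^ D ≤ (2 ^ (La q + 1)) ^ D := pow_le_pow_left₀ (Nat.cast_nonneg _) q_lt_two_pow D
      _ = 2 ^ D * 2 ^ (D * La q) := by
          rw [← pow_mul, ← pow_add]
          congr 1
          ring
  calc (q:ℝ) ^ D * wm (fun o => s * H o) ≤ (2 ^ D * 2 ^ (D * La q)) *
        (1 / 2 ^ sz (fun o => s * H o)) :=
        mul_le_mul h2 h1 (wm_nonneg _) (by positivity)
    _ = 2 ^ D * 2 ^ K0 * ((2:ℝ) ^ (D * La q) / 2 ^ (K0 + sz (fun o => s * H o))) := by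
        rw [pow_add (2:ℝ) K0]
        field_simp

lemma mxv_self (l : Fin (n+2) → ℕ) : mxv l l = l := by
  funext a
  exact max_self _

lemma mxv_comm (l l' : Fin (n+2) → ℕ) : mxv l l' = mxv l' l := by
  funext a
  exact max_comm _ _

/-- the relations eliminated to zero are multiples -/
lemma mult_of_OO {l : Fin (n+2) → ℕ} {H H' : Option (Fin (n+2)) → ZMod q} (hg : H none ≠ 0)
    (h0 : OO l l H H' = 0) : H' = fun o => rat H H' * H o := by
  funext o
  rcases o with _ | a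
  · exact (rat_none hg).symm
  · exact OO_eq hg h0 rfl

lemma sum_RR_eq {c : Flg q M B n} (hc : IsFlags c) {K7 r : ℕ} {b : Fin M} {ω : Pth q B}
    {l : Fin (n+2) → ℕ} (hE : Exc c ω r) (hK : n + 2 ≤ K7) (hl : l ∈ IL M B n K7 r b) :
    ∑ z : Blk q B, RR c (Function.update ω (r * M + (M - 1 - b)) z) l r =
      (q:ℝ) ^ B * ∑ H : Option (Fin (n+2)) → ZMod q, ii (H none ≠ 0) * wm H := by
  classical
  have hqp : (0:ℝ) < (q:ℝ) ^ dm M B l r := pow_pos qpos _
  calc ∑ z : Blk q B, RR c (Function.update ω (r * M + (M - 1 - b)) z) l r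
      = ∑ z : Blk q B, ∑ H : Option (Fin (n+2)) → ZMod q,
          ii (H none ≠ 0 ∧ Rel c (Function.update ω (r * M + (M - 1 - b)) z) l r H) *
            ((q:ℝ) ^ dm M B l r * wm H) := by
        refine sum_congr rfl fun z _ => RR_eq _ _ _ _
    _ = ∑ H : Option (Fin (n+2)) → ZMod q, ∑ z : Blk q B,
          ii (H none ≠ 0 ∧ Rel c (Function.update ω (r * M + (M - 1 - b)) z) l r H) *
            ((q:ℝ) ^ dm M B l r * wm H) := sum_comm
    _ = ∑ H : Option (Fin (n+2)) → ZMod q, (q:ℝ) ^ B * (ii (H none ≠ 0) * wm H) := by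
        refine sum_congr rfl fun H _ => ?_
        rw [← sum_mul]
        by_cases hH : H none ≠ 0
        · have e : ∀ z : Blk q B, ii (H none ≠ 0 ∧
              Rel c (Function.update ω (r * M + (M - 1 - b)) z) l r H) =
              ii (Rel c (Function.update ω (r * M + (M - 1 - b)) z) l r H) := fun z =>
            ii_congr ⟨fun h => h.2, fun h => ⟨hH, h⟩⟩
          rw [sum_congr rfl (fun z _ => e z), sum_ii_Rel hc hE hK hl H hH, ii_true hH]
          field_simp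
        · have e : ∀ z : Blk q B, ii (H none ≠ 0 ∧
              Rel c (Function.update ω (r * M + (M - 1 - b)) z) l r H) = 0 := fun z =>
            ii_false fun h => hH h.1
          rw [sum_congr rfl (fun z _ => e z), sum_const_zero, zero_mul, ii_false hH]
          ring
    _ = (q:ℝ) ^ B * ∑ H : Option (Fin (n+2)) → ZMod q, ii (H none ≠ 0) * wm H := by rw [mul_sum]

/-- distant levels -/
lemma far_le {c : Flg q M B n} (hc : IsFlags c) {K7 r : ℕ} {b : Fin M} {ω : Pth q B}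
    {l l' : Fin (n+2) → ℕ} (hE : Exc c ω r) (hP : PairG c K7 ω r)
    (hl : l ∈ IL M B n K7 r b) (hl' : l' ∈ IL M B n K7 r b) (h0 : dm M B (mxv l l') r = 0) :
    ∑ z : Blk q B, RR c (Function.update ω (r * M + (M - 1 - b)) z) l r *
      RR c (Function.update ω (r * M + (M - 1 - b)) z) l' r ≤
      (q:ℝ) ^ B * ((∑ H : Option (Fin (n+2)) → ZMod q, ii (H none ≠ 0) * wm H) *
        (∑ H' : Option (Fin (n+2)) → ZMod q, ii (H' none ≠ 0) * wm H')) := by
  classical
  have hqD : (0:ℝ) < (q:ℝ) ^ dm M B l r := pow_pos qpos _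
  have hqD' : (0:ℝ) < (q:ℝ) ^ dm M B l' r := pow_pos qpos _
  set U : Blk q B → Pth q B := fun z => Function.update ω (r * M + (M - 1 - b)) z with hU
  calc ∑ z : Blk q B, RR c (U z) l r * RR c (U z) l' r
      = ∑ H : Option (Fin (n+2)) → ZMod q, ∑ H' : Option (Fin (n+2)) → ZMod q,
            ((q:ℝ) ^ dm M B l r * wm H) * ((q:ℝ) ^ dm M B l' r * wm H') *
            ∑ z : Blk q B, ii (H none ≠ 0 ∧ Rel c (U z) l r H) *
              ii (H' none ≠ 0 ∧ Rel c (U z) l' r H') := by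
          simp only [RR_eq, sum_mul_sum]
          simp only [mul_sum]
          rw [sum_comm]
          refine sum_congr rfl fun H _ => ?_
          rw [sum_comm]
          refine sum_congr rfl fun H' _ => sum_congr rfl fun z _ => ?_
          ring
    _ ≤ ∑ H : Option (Fin (n+2)) → ZMod q, ∑ H' : Option (Fin (n+2)) → ZMod q,
            ((q:ℝ) ^ dm M B l r * (ii (H none ≠ 0) * wm H)) *
            ((q:ℝ) ^ dm M B l' r * (ii (H' none ≠ 0) * wm H')) *
            ((q:ℝ) ^ B / ((q:ℝ) ^ dm M B l r * (q:ℝ) ^ dm M B l' r)) := by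
          refine sum_le_sum fun H _ => sum_le_sum fun H' _ => ?_
          have hw0 := wm_nonneg H
          have hw0' := wm_nonneg H'
          by_cases hH : H none ≠ 0
          · by_cases hH' : H' none ≠ 0
            · have e : ∀ z : Blk q B, ii (H none ≠ 0 ∧ Rel c (U z) l r H) =
                  ii (Rel c (U z) l r H) := fun z =>
                ii_congr ⟨fun h => h.2, fun h => ⟨hH, h⟩⟩
              have e' : ∀ z : Blk q B, ii (H' none ≠ 0 ∧ Rel c (U z) l' r H') =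
                  ii (Rel c (U z) l' r H') := fun z =>
                ii_congr ⟨fun h => h.2, fun h => ⟨hH', h⟩⟩
              simp only [e, e']
              rw [ii_true hH, ii_true hH', one_mul, one_mul]
              refine mul_le_mul_of_nonneg_left ?_ (by positivity)
              exact sum_RR_pair_aux hc hl hl' hE h0 hP H H' hH hH'
            · have e' : ∀ z : Blk q B, ii (H' none ≠ 0 ∧ Rel c (U z) l' r H') = 0 := fun z =>
                ii_false fun h => hH' h.1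
              simp only [e', mul_zero, sum_const_zero]
              rw [ii_false hH']
              simp
          · have e : ∀ z : Blk q B, ii (H none ≠ 0 ∧ Rel c (U z) l r H) = 0 := fun z =>
              ii_false fun h => hH h.1
            simp only [e, zero_mul, sum_const_zero]
            rw [ii_false hH]
            simp
    _ = (q:ℝ) ^ B * ((∑ H : Option (Fin (n+2)) → ZMod q, ii (H none ≠ 0) * wm H) *
            (∑ H' : Option (Fin (n+2)) → ZMod q, ii (H' none ≠ 0) * wm H')) := by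
          rw [sum_mul_sum, mul_sum]
          refine sum_congr rfl fun H _ => ?_
          rw [mul_sum]
          refine sum_congr rfl fun H' _ => ?_
          field_simp

/-- the number of blocks with a relation on a line which is not forbidden -/
lemma count_good {c : Flg q M B n} (hc : IsFlags c) {K0 K7 r : ℕ} {b : Fin M} {ω : Pth q B}
    {l : Fin (n+2) → ℕ} (hE : Exc c ω r) (hK : n + 2 ≤ K7) (hl : l ∈ IL M B n K7 r b)
    (H H' : Option (Fin (n+2)) → ZMod q) (hH : H none ≠ 0) :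
    ∑ z : Blk q B, ii (Rel c (Wz M ω r b z) l r H) * ii (Rel c (Wz M ω r b z) l r H') *
      ii (Gx c K0 (Wz M ω r b z) l r) ≤
      ii (¬ BX (2 ^ (n + 6)) (dm M B l r) K0 H) * ((q:ℝ) ^ B / (q:ℝ) ^ dm M B l r) := by
  classical
  by_cases hb : BX (2 ^ (n + 6)) (dm M B l r) K0 H
  · rw [ii_false (not_not.2 hb), zero_mul]
    refine le_of_eq (sum_eq_zero fun z _ => ?_)
    by_cases h1 : Rel c (Wz M ω r b z) l r H
    · by_cases h2 : Gx c K0 (Wz M ω r b z) l r
      · exact absurd hb (h2 H hH h1)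
      · rw [ii_false h2, mul_zero]
    · rw [ii_false h1, zero_mul, zero_mul]
  · rw [ii_true hb, one_mul, ← sum_ii_Rel hc hE hK hl H hH]
    refine sum_le_sum fun z _ => ?_
    refine (mul_le_of_le_one_right (mul_nonneg (ii_nonneg _) (ii_nonneg _)) (ii_le_one _)).trans ?_
    exact mul_le_of_le_one_right (ii_nonneg _) (ii_le_one _)

open Classical in
/-- the diagonal -/
lemma diag_le {c : Flg q M B n} (hc : IsFlags c) {K0 K7 r : ℕ} {b : Fin M} {ω : Pth q B}
    {l : Fin (n+2) → ℕ} (hE : Exc c ω r) (hK : 2 * n + 4 ≤ K7) (hl : l ∈ IL M B n K7 r b) :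
    ∑ z : Blk q B, (RR c (Wz M ω r b z) l r * ii (Gx c K0 (Wz M ω r b z) l r)) ^ 2 ≤
      (q:ℝ) ^ B * (QQ c ω r l l + 2 ^ (2 * n + 8) * 2 ^ K0 *
        ∑ H ∈ (univ : Finset (Option (Fin (n + 2)) → ZMod q)).filter (fun H => H none ≠ 0 ∧
          ¬ BdL (dm M B l r) K0 H), wm H * min 1 (XW (dm M B l r) K0 H)) := by
  have hq0 : (0:ℝ) < q := qpos
  set D := dm M B l r with hD
  have hD1 : 1 ≤ D := IL_dm1 hl
  have hDn : D ≤ n + 2 := IL_dm hl
  have hqD : (0:ℝ) < (q:ℝ) ^ D := pow_pos hq0 _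
  have hqB : (0:ℝ) < (q:ℝ) ^ B := pow_pos hq0 _
  set 𝓝 := (univ : Finset (Option (Fin (n + 2)) → ZMod q)).filter (fun H => H none ≠ 0) with h𝓝
  -- expansion
  have e1 : ∀ z : Blk q B, (RR c (Wz M ω r b z) l r * ii (Gx c K0 (Wz M ω r b z) l r)) ^ 2 =
      ∑ H ∈ 𝓝, ∑ H' ∈ 𝓝, ((q:ℝ) ^ D * wm H) * ((q:ℝ) ^ D * wm H') *
        (ii (Rel c (Wz M ω r b z) l r H) * ii (Rel c (Wz M ω r b z) l r H') *
          ii (Gx c K0 (Wz M ω r b z) l r)) := by
    intro z
    have e2 : RR c (Wz M ω r b z) l r = ∑ H ∈ 𝓝, ii (Rel c (Wz M ω r b z) l r H) *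
        ((q:ℝ) ^ D * wm H) := by
      unfold RR
      rw [h𝓝, ← filter_filter, sum_filter]
      refine sum_congr rfl fun H _ => ?_
      by_cases h : Rel c (Wz M ω r b z) l r H
      · rw [if_pos h, ii_true h, one_mul]
      · rw [if_neg h, ii_false h, zero_mul]
    have e3 : ii (Gx c K0 (Wz M ω r b z) l r) ^ 2 = ii (Gx c K0 (Wz M ω r b z) l r) := by
      by_cases h : Gx c K0 (Wz M ω r b z) l r
      · rw [ii_true h, one_pow]
      · rw [ii_false h]; ring
    rw [mul_pow, e3, sq, e2, sum_mul_sum, sum_mul]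
    refine sum_congr rfl fun H _ => ?_
    rw [sum_mul]
    refine sum_congr rfl fun H' _ => ?_
    ring
  -- each pair
  have e4 : ∀ H ∈ 𝓝, ∀ H' ∈ 𝓝, ((q:ℝ) ^ D * wm H) * ((q:ℝ) ^ D * wm H') *
      ∑ z : Blk q B, (ii (Rel c (Wz M ω r b z) l r H) * ii (Rel c (Wz M ω r b z) l r H') *
        ii (Gx c K0 (Wz M ω r b z) l r)) ≤
      (q:ℝ) ^ B * (ii (OO l l H H' ≠ 0 ∧ OR c ω (mxv l l) r (OO l l H H')) *
        ((q:ℝ) ^ dm M B (mxv l l) r * (wm H * wm H'))) +
      (q:ℝ) ^ B * (ii (OO l l H H' = 0) * (ii (¬ BX (2 ^ (n + 6)) D K0 H) *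
        ((q:ℝ) ^ D * (wm H * wm H')))) := by
    intro H hH H' hH'
    rw [h𝓝, mem_filter] at hH hH'
    have hw := wm_nonneg H
    have hw' := wm_nonneg H'
    by_cases h0 : OO l l H H' = 0
    · rw [ii_true h0, one_mul, ii_false (fun h => h.1 h0), zero_mul, mul_zero, zero_add]
      have h1 := count_good (K0 := K0) hc hE (by omega) hl H H' hH.2
      calc _ ≤ ((q:ℝ) ^ D * wm H) * ((q:ℝ) ^ D * wm H') *
            (ii (¬ BX (2 ^ (n + 6)) D K0 H) * ((q:ℝ) ^ B / (q:ℝ) ^ D)) :=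
            mul_le_mul_of_nonneg_left h1 (by positivity)
        _ = _ := by field_simp
    · rw [ii_false h0, zero_mul, mul_zero, add_zero, ii_and, ii_true h0, one_mul]
      have h1 : ∑ z : Blk q B, (ii (Rel c (Wz M ω r b z) l r H) *
          ii (Rel c (Wz M ω r b z) l r H') * ii (Gx c K0 (Wz M ω r b z) l r)) ≤
          N1 c ω r b l l H H' := by
        rw [N1_eq]
        refine sum_le_sum fun z _ => ?_
        rw [ii_and]
        exact mul_le_of_le_one_right (mul_nonneg (ii_nonneg _) (ii_nonneg _)) (ii_le_one _)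
      have h2 := N1_le hc hE hK hl hl (by rw [mxv_self]; exact hD1) H H' hH.2 hH'.2
      rw [mxv_self, ← hD] at h2 ⊢
      rw [div_self hqD.ne', mul_one] at h2
      calc _ ≤ ((q:ℝ) ^ D * wm H) * ((q:ℝ) ^ D * wm H') * N1 c ω r b l l H H' :=
            mul_le_mul_of_nonneg_left h1 (by positivity)
        _ = ((q:ℝ) ^ D * (wm H * wm H')) * ((q:ℝ) ^ D * N1 c ω r b l l H H') := by ring
        _ ≤ ((q:ℝ) ^ D * (wm H * wm H')) * ((q:ℝ) ^ B * ii (OR c ω l r (OO l l H H'))) :=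
            mul_le_mul_of_nonneg_left h2 (by positivity)
        _ = _ := by ring
  -- the multiples
  have e5 : ∀ H ∈ 𝓝, ∑ H' ∈ 𝓝, ii (OO l l H H' = 0) * wm H' ≤
      ∑ s ∈ (univ : Finset (ZMod q)).filter (fun s => s ≠ 0), wm (fun o => s * H o) := by
    intro H hH
    rw [h𝓝, mem_filter] at hH
    have h1 : ∑ H' ∈ 𝓝, ii (OO l l H H' = 0) * wm H' =
        ∑ H' ∈ 𝓝.filter (fun H' => OO l l H H' = 0), wm H' := by
      refine Eq.trans (sum_congr rfl fun H' _ => ?_)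
        (sum_filter (s := 𝓝) (fun H' => OO l l H H' = 0) _).symm
      by_cases h : OO l l H H' = 0
      · rw [ii_true h, if_pos h, one_mul]
      · rw [ii_false h, if_neg h, zero_mul]
    rw [h1]
    have h2 : 𝓝.filter (fun H' => OO l l H H' = 0) ⊆
        ((univ : Finset (ZMod q)).filter (fun s => s ≠ 0)).image (fun s => fun o => s * H o) := by
      intro H' hH'
      rw [mem_filter, h𝓝, mem_filter] at hH'
      rw [mem_image]
      refine ⟨rat H H', mem_filter.2 ⟨mem_univ _, rat_ne hH.2 hH'.1.2⟩, ?_⟩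
      exact (mult_of_OO hH.2 hH'.2).symm
    refine (sum_le_sum_of_subset_of_nonneg h2 (fun _ _ _ => wm_nonneg _)).trans (le_of_eq ?_)
    rw [sum_image]
    intro s _ s' _ hss
    exact mul_right_cancel₀ hH.2 (congrFun hss none)
  -- the lines which are not forbidden
  have e6 : ∀ H ∈ 𝓝, ∑ H' ∈ 𝓝, (ii (OO l l H H' = 0) * (ii (¬ BX (2 ^ (n + 6)) D K0 H) *
        ((q:ℝ) ^ D * (wm H * wm H')))) ≤
      ii (¬ BdL D K0 H) * (2 ^ (2 * n + 8) * 2 ^ K0 * (wm H * min 1 (XW D K0 H))) := by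
    intro H hH
    have hw := wm_nonneg H
    have hX0 := XW_nonneg D K0 H
    have hmin : 0 ≤ min 1 (XW D K0 H) := le_min zero_le_one hX0
    by_cases hb : BX (2 ^ (n + 6)) D K0 H
    · rw [ii_false (not_not.2 hb)]
      simp only [zero_mul, mul_zero, sum_const_zero]
      exact mul_nonneg (ii_nonneg _) (by positivity)
    · have hb1 : ¬ BdL D K0 H := fun h => hb (Or.inl h)
      have hb2 : XW D K0 H ≤ 2 ^ (n + 6) := not_lt.1 fun h => hb (Or.inr h)
      rw [ii_true hb, ii_true hb1, one_mul]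
      have h1 : ∑ H' ∈ 𝓝, (ii (OO l l H H' = 0) * (1 * ((q:ℝ) ^ D * (wm H * wm H')))) =
          wm H * ((q:ℝ) ^ D * ∑ H' ∈ 𝓝, ii (OO l l H H' = 0) * wm H') := by
        rw [mul_sum, mul_sum]
        exact sum_congr rfl fun H' _ => by ring
      rw [h1]
      have h2 : (q:ℝ) ^ D * ∑ H' ∈ 𝓝, ii (OO l l H H' = 0) * wm H' ≤
          2 ^ D * 2 ^ K0 * XW D K0 H :=
        (mul_le_mul_of_nonneg_left (e5 H hH) hqD.le).trans (sum_mult H)
      have h3 : XW D K0 H ≤ 2 ^ (n + 6) * min 1 (XW D K0 H) := by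
        rcases le_total 1 (XW D K0 H) with h | h
        · rw [min_eq_left h, mul_one]
          exact hb2
        · rw [min_eq_right h]
          exact le_mul_of_one_le_left hX0 (one_le_pow₀ (by norm_num))
      have h4 : (2:ℝ) ^ D ≤ 2 ^ (n + 2) := pow_le_pow_right₀ (by norm_num) hDn
      calc wm H * ((q:ℝ) ^ D * ∑ H' ∈ 𝓝, ii (OO l l H H' = 0) * wm H')
          ≤ wm H * (2 ^ D * 2 ^ K0 * XW D K0 H) := mul_le_mul_of_nonneg_left h2 hw
        _ ≤ wm H * (2 ^ (n + 2) * 2 ^ K0 * (2 ^ (n + 6) * min 1 (XW D K0 H))) := by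
            gcongr
        _ = 2 ^ (2 * n + 8) * 2 ^ K0 * (wm H * min 1 (XW D K0 H)) := by
            rw [show 2 * n + 8 = (n + 2) + (n + 6) by ring, pow_add (2:ℝ) (n + 2)]
            ring
  -- assembly
  calc ∑ z : Blk q B, (RR c (Wz M ω r b z) l r * ii (Gx c K0 (Wz M ω r b z) l r)) ^ 2
      = ∑ H ∈ 𝓝, ∑ H' ∈ 𝓝, ((q:ℝ) ^ D * wm H) * ((q:ℝ) ^ D * wm H') *
        ∑ z : Blk q B, (ii (Rel c (Wz M ω r b z) l r H) * ii (Rel c (Wz M ω r b z) l r H') *
          ii (Gx c K0 (Wz M ω r b z) l r)) := by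
        rw [sum_congr rfl (fun z _ => e1 z), sum_comm]
        refine sum_congr rfl fun H _ => ?_
        rw [sum_comm]
        refine sum_congr rfl fun H' _ => ?_
        rw [mul_sum]
    _ ≤ ∑ H ∈ 𝓝, ∑ H' ∈ 𝓝, ((q:ℝ) ^ B * (ii (OO l l H H' ≠ 0 ∧
          OR c ω (mxv l l) r (OO l l H H')) * ((q:ℝ) ^ dm M B (mxv l l) r * (wm H * wm H'))) +
        (q:ℝ) ^ B * (ii (OO l l H H' = 0) * (ii (¬ BX (2 ^ (n + 6)) D K0 H) *
        ((q:ℝ) ^ D * (wm H * wm H'))))) :=
        sum_le_sum fun H hH => sum_le_sum fun H' hH' => e4 H hH H' hH'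
    _ = (q:ℝ) ^ B * QQ c ω r l l + (q:ℝ) ^ B * ∑ H ∈ 𝓝, ∑ H' ∈ 𝓝, (ii (OO l l H H' = 0) *
        (ii (¬ BX (2 ^ (n + 6)) D K0 H) * ((q:ℝ) ^ D * (wm H * wm H')))) := by
        unfold QQ
        rw [← h𝓝, mul_sum, mul_sum, ← sum_add_distrib]
        refine sum_congr rfl fun H _ => ?_
        rw [mul_sum, mul_sum, ← sum_add_distrib]
    _ ≤ (q:ℝ) ^ B * QQ c ω r l l + (q:ℝ) ^ B * ∑ H ∈ 𝓝, ii (¬ BdL D K0 H) *
        (2 ^ (2 * n + 8) * 2 ^ K0 * (wm H * min 1 (XW D K0 H))) := by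
        refine add_le_add le_rfl (mul_le_mul_of_nonneg_left ?_ hqB.le)
        exact sum_le_sum fun H hH => e6 H hH
    _ = _ := by
        rw [mul_add]
        congr 2
        rw [mul_sum, ← filter_filter, ← h𝓝]
        refine Eq.trans (sum_congr rfl fun H _ => ?_)
          (sum_filter (s := 𝓝) (fun H => ¬ BdL D K0 H) _).symm
        by_cases h : BdL D K0 H
        · rw [ii_false (not_not.2 h), if_neg (not_not.2 h), zero_mul]
        · rw [ii_true h, if_pos h, one_mul]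

lemma QQ_nonneg (c : Flg q M B n) (ω : Pth q B) (r : ℕ) (l l' : Fin (n+2) → ℕ) :
    0 ≤ QQ c ω r l l' := by
  unfold QQ
  refine sum_nonneg fun H _ => sum_nonneg fun H' _ => mul_nonneg (ii_nonneg _) ?_
  have := wm_nonneg H
  have := wm_nonneg H'
  positivity

end gen

/-- **X14** -/
theorem x14 (h9 : St_X9) (h8 : St_C8) : St_X14 := by
  classical
  intro n
  obtain ⟨C9, hC9⟩ := h9 n
  obtain ⟨C8, hC8⟩ := h8 n
  refine ⟨C8 ^ 2 + (2 * n + 3) ^ (n + 2) * (2 ^ (2 * n + 8) * C9 + 1) + C9 + 3, ?_⟩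
  intro q _ hS hCq M B c hc K0 K7 hK hK0 hK0' ω r b hE hP
  set N := (2 * n + 3) ^ (n + 2) with hN
  have hq3 : 3 ≤ q := by omega
  have hu : (n + 11) * uu q ≤ K0 := by
    have : (n + 11) * uu q ≤ (n + 12) * uu q := Nat.mul_le_mul_right _ (by omega)
    omega
  have hq0 : (0:ℝ) < q := qpos
  have hqB : (0:ℝ) < (q:ℝ) ^ B := pow_pos hq0 _
  set I := IL M B n K7 r b with hI
  set g : (Fin (n+2) → ℕ) → Blk q B → ℝ := fun l z =>
    RR c (Wz M ω r b z) l r * ii (Gx c K0 (Wz M ω r b z) l r) with hg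
  have hg0 : ∀ l z, 0 ≤ g l z := fun l z => mul_nonneg (RR_nonneg _ _ _ _) (ii_nonneg _)
  set G : (Fin (n+2) → ℕ) → ℝ := fun l => ∑ z : Blk q B, g l z ^ 2 with hG
  have hG0 : ∀ l, 0 ≤ G l := fun l => sum_nonneg fun z _ => sq_nonneg _
  set S := ∑ H : Option (Fin (n+2)) → ZMod q, ii (H none ≠ 0) * wm H with hSd
  have hS0 : 0 ≤ S := sum_nonneg fun H _ => mul_nonneg (ii_nonneg _) (wm_nonneg _)
  -- the sum over the pairs
  have hexp : ∑ z : Blk q B, (∑ l ∈ I, g l z) ^ 2 =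
      ∑ l ∈ I, ∑ l' ∈ I, ∑ z : Blk q B, g l z * g l' z := by
    simp only [sq, sum_mul_sum]
    rw [sum_comm]
    refine sum_congr rfl fun l _ => ?_
    rw [sum_comm]
  have hpair : ∀ l ∈ I, ∀ l' ∈ I, ∑ z : Blk q B, g l z * g l' z ≤
      (q:ℝ) ^ B * (C8 ^ 2 * (La q : ℝ) ^ (2 * n + 6)) +
        ii (1 ≤ dm M B (mxv l l') r) * ((G l + G l') / 2) := by
    intro l hl l' hl'
    by_cases hd : 1 ≤ dm M B (mxv l l') r
    · rw [ii_true hd, one_mul]
      have h1 : ∑ z : Blk q B, g l z * g l' z ≤ (G l + G l') / 2 := by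
        simp only [hG]
        rw [← sum_add_distrib, sum_div]
        refine sum_le_sum fun z _ => ?_
        nlinarith [sq_nonneg (g l z - g l' z)]
      have h2 : 0 ≤ (q:ℝ) ^ B * (C8 ^ 2 * (La q : ℝ) ^ (2 * n + 6)) := by positivity
      linarith
    · rw [ii_false hd, zero_mul, add_zero]
      have h1 : ∑ z : Blk q B, g l z * g l' z ≤ (q:ℝ) ^ B * (S * S) := by
        refine le_trans (sum_le_sum fun z _ => ?_) (far_le hc hE hP hl hl' (by omega))
        refine mul_le_mul ?_ ?_ (hg0 _ _) (RR_nonneg _ _ _ _)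
        · exact mul_le_of_le_one_right (RR_nonneg _ _ _ _) (ii_le_one _)
        · exact mul_le_of_le_one_right (RR_nonneg _ _ _ _) (ii_le_one _)
      have h2 : S ≤ C8 * (La q : ℝ) ^ (n + 3) := by
        have h3 := hC8 q hq3 M B c hc K7 (by omega) ω r b l hl hE
        rw [sum_RR_eq hc hE (by omega) hl] at h3
        exact le_of_mul_le_mul_left h3 hqB
      refine h1.trans (mul_le_mul_of_nonneg_left ?_ hqB.le)
      calc S * S ≤ (C8 * (La q : ℝ) ^ (n + 3)) * (C8 * (La q : ℝ) ^ (n + 3)) :=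
            mul_le_mul h2 h2 hS0 (by positivity)
        _ = C8 ^ 2 * (La q : ℝ) ^ (2 * n + 6) := by
            rw [show 2 * n + 6 = (n + 3) + (n + 3) by ring, pow_add _ (n+3) (n+3)]
            ring
  have hnear : ∀ l ∈ I, ∑ l' ∈ I, ii (1 ≤ dm M B (mxv l l') r) ≤ (N : ℝ) := by
    intro l hl
    have h1 := card_join K7 r b l hl
    rw [← hI] at h1
    have h2 : ∑ l' ∈ I, ii (1 ≤ dm M B (mxv l l') r) =
        (((I.filter (fun l' => 1 ≤ dm M B (mxv l l') r)).card : ℕ) : ℝ) := by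
      rw [card_filter]
      push_cast
      refine sum_congr rfl fun l' _ => ?_
      by_cases h : 1 ≤ dm M B (mxv l l') r
      · rw [ii_true h, if_pos h]
      · rw [ii_false h, if_neg h]
    rw [h2]
    exact_mod_cast h1
  have hsumG : ∑ l ∈ I, ∑ l' ∈ I, ii (1 ≤ dm M B (mxv l l') r) * ((G l + G l') / 2) ≤
      N * ∑ l ∈ I, G l := by
    have h1 : ∑ l ∈ I, ∑ l' ∈ I, ii (1 ≤ dm M B (mxv l l') r) * (G l' / 2) =
        ∑ l ∈ I, ∑ l' ∈ I, ii (1 ≤ dm M B (mxv l l') r) * (G l / 2) := by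
      rw [sum_comm]
      refine sum_congr rfl fun l _ => sum_congr rfl fun l' _ => ?_
      rw [mxv_comm]
    have h2 : ∑ l ∈ I, ∑ l' ∈ I, ii (1 ≤ dm M B (mxv l l') r) * ((G l + G l') / 2) =
        ∑ l ∈ I, ∑ l' ∈ I, ii (1 ≤ dm M B (mxv l l') r) * (G l / 2) +
        ∑ l ∈ I, ∑ l' ∈ I, ii (1 ≤ dm M B (mxv l l') r) * (G l' / 2) := by
      rw [← sum_add_distrib]
      refine sum_congr rfl fun l _ => ?_
      rw [← sum_add_distrib]
      refine sum_congr rfl fun l' _ => ?_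
      ring
    rw [h2, h1, ← two_mul, mul_sum, mul_sum]
    refine sum_le_sum fun l hl => ?_
    rw [← sum_mul]
    have h3 := hnear l hl
    have h4 := hG0 l
    nlinarith
  have hdiag : ∀ l ∈ I, G l ≤ (q:ℝ) ^ B * (QQ c ω r l l +
      2 ^ (2 * n + 8) * 2 ^ K0 * (C9 * (La q : ℝ) ^ (n + 2))) := by
    intro l hl
    refine (diag_le (K0 := K0) hc hE hK hl).trans ?_
    have h1 := hC9 q hS (by omega) (dm M B l r) K0 (IL_dm1 hl) (IL_dm hl) hu hK0'
    gcongr
  show ∑ z : Blk q B, (∑ l ∈ I, g l z) ^ 2 ≤ _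
  rw [hexp]
  have hQ0 : 0 ≤ ∑ l ∈ I, QQ c ω r l l := sum_nonneg fun l _ => QQ_nonneg _ _ _ _ _
  calc ∑ l ∈ I, ∑ l' ∈ I, ∑ z : Blk q B, g l z * g l' z
      ≤ ∑ l ∈ I, ∑ l' ∈ I, ((q:ℝ) ^ B * (C8 ^ 2 * (La q : ℝ) ^ (2 * n + 6)) +
        ii (1 ≤ dm M B (mxv l l') r) * ((G l + G l') / 2)) :=
        sum_le_sum fun l hl => sum_le_sum fun l' hl' => hpair l hl l' hl'
    _ = (I.card : ℝ) * ((I.card : ℝ) * ((q:ℝ) ^ B * (C8 ^ 2 * (La q : ℝ) ^ (2 * n + 6)))) +
        ∑ l ∈ I, ∑ l' ∈ I, ii (1 ≤ dm M B (mxv l l') r) * ((G l + G l') / 2) := by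
        simp only [sum_add_distrib, sum_const, nsmul_eq_mul]
    _ ≤ (I.card : ℝ) * ((I.card : ℝ) * ((q:ℝ) ^ B * (C8 ^ 2 * (La q : ℝ) ^ (2 * n + 6)))) +
        N * ∑ l ∈ I, (q:ℝ) ^ B * (QQ c ω r l l +
          2 ^ (2 * n + 8) * 2 ^ K0 * (C9 * (La q : ℝ) ^ (n + 2))) := by
        refine add_le_add le_rfl (hsumG.trans ?_)
        exact mul_le_mul_of_nonneg_left (sum_le_sum hdiag) (Nat.cast_nonneg _)
    _ = (q:ℝ) ^ B * (C8 ^ 2 * ((La q : ℝ) ^ (2 * n + 6) * (I.card : ℝ) ^ 2) +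
        N * (2 ^ (2 * n + 8) * C9) * ((La q : ℝ) ^ (n + 2) * 2 ^ K0 * I.card) +
        N * ∑ l ∈ I, QQ c ω r l l) := by
        rw [← mul_sum, sum_add_distrib, sum_const, nsmul_eq_mul]
        ring
    _ ≤ _ := by
        refine mul_le_mul_of_nonneg_left ?_ hqB.le
        have a1 : (0:ℝ) ≤ (La q : ℝ) ^ (2 * n + 6) * (I.card : ℝ) ^ 2 := by positivity
        have a2 : (0:ℝ) ≤ (La q : ℝ) ^ (n + 2) * 2 ^ K0 * I.card := by positivity
        have c1 : (0:ℝ) ≤ (C8:ℝ) ^ 2 := by positivity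
        have c2 : (0:ℝ) ≤ (N:ℝ) * (2 ^ (2 * n + 8) * C9) := by positivity
        have c3 : (0:ℝ) ≤ (N:ℝ) := Nat.cast_nonneg _
        have c4 : (0:ℝ) ≤ (C9:ℝ) := Nat.cast_nonneg _
        have e : (((C8 ^ 2 + N * (2 ^ (2 * n + 8) * C9 + 1) + C9 + 3 : ℕ)) : ℝ) =
            (C8:ℝ) ^ 2 + (N:ℝ) * (2 ^ (2 * n + 8) * C9) + N + C9 + 3 := by
          push_cast
          ring
        rw [e, mul_add, mul_add]
        refine add_le_add (add_le_add ?_ ?_) ?_
        · exact mul_le_mul_of_nonneg_right (by linarith) a1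
        · exact mul_le_mul_of_nonneg_right (by linarith) a2
        · exact mul_le_mul_of_nonneg_right (by linarith) hQ0

end Pool.Agent.Y710.SX
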